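import Pool.Agent.Helper44.Sinks.Defs
import Pool.Agent.Helper44.Sinks.Main

/-!
An unordered configuration space of a graph with sinks with nonzero second homotopy group.
-/

namespace Pool.Agent.Results.MP_c15946_gt.SinkConfNotAspherical

open Pool.Agent.Helper44.Sinks

/-- Let `Γ` be the bouquet of three circles and let its only vertex be a sink. Then
`π₂(B_2(Γ,S), x) ≠ 0` for some base point `x`; in particular there are a graph with sinks `(Γ,S)`,
an integer `k` and `n ≥ 2` with `π_n(B_k(Γ,S), x) ≠ 0`. -/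
theorem result :
    (∃ x : UConf bq Set.univ 2, Nontrivial (HomotopyGroup.Pi 2 (UConf bq Set.univ 2) x)) ∧
    (∃ (G : MGraph) (S : Set G.V) (k : ℕ) (x : UConf G S k) (n : ℕ),
      2 ≤ n ∧ Nontrivial (HomotopyGroup.Pi n (UConf G S k) x)) :=
  ⟨⟨x₀, nontrivial_pi2⟩, ⟨bq, Set.univ, 2, x₀, 2, le_refl 2, nontrivial_pi2⟩⟩

end Pool.Agent.Results.MP_c15946_gt.SinkConfNotAspherical
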